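import Pool.Agent.Q240.LH.Final

/-!
# Numbers of zeros in windows, and coverings
-/

set_option autoImplicit false

namespace Q240.LD

open Complex Filter Topology Metric Set Polynomial
open Q240.SH Q240.LH

/-- Jensen in a box -/
theorem box {F : ℂ → ℂ} (hF : Cls F) : ∃ K T0 : ℝ, 0 < K ∧ 100 ≤ T0 ∧ ∀ T : ℝ, T0 ≤ T →
    ∀ Z : Finset ℂ, (∀ z ∈ Z, 0 ≤ z.re ∧ z.re ≤ 1 / 2 ∧ |z.im - T| ≤ 1) →
      ∑ z ∈ Z, (H370.mult F z : ℝ) ≤ K * Real.log T := by
  obtain ⟨A, T1, hA, hT1, hg⟩ := hF.grow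
  obtain ⟨T2, hT2, hbig⟩ := hF.big (1 / 2) (by norm_num)
  have hκ : 0 < Real.log (3 / 2) := Real.log_pos (by norm_num)
  refine ⟨2 * A / Real.log (3 / 2), T1 + T2 + 100, by positivity, by linarith, fun T hT Z hZ => ?_⟩
  have hT0 : 0 < T := by linarith
  obtain ⟨L, hL⟩ : ∃ L : ℝ, L = Real.log T := ⟨_, rfl⟩
  have hL1 : 1 ≤ L := by
    rw [hL, Real.le_log_iff_exp_le hT0]
    linarith [Real.exp_one_lt_d9]
  rw [← hL]
  obtain ⟨c, hc⟩ : ∃ c : ℂ, c = ⟨-1, T⟩ := ⟨_, rfl⟩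
  have hcre : c.re = -1 := by rw [hc]
  have hcim : c.im = T := by rw [hc]
  have hball : ∀ z ∈ closedBall c 3, -4 ≤ z.re ∧ z.re ≤ 4 ∧ |z.im - T| ≤ 3 := by
    intro z hz
    rw [mem_closedBall, dist_eq_norm] at hz
    have h1 := abs_le.1 ((abs_re_le_norm (z - c)).trans hz)
    have h2 := (abs_im_le_norm (z - c)).trans hz
    rw [sub_re, hcre] at h1
    rw [sub_im, hcim] at h2
    exact ⟨by linarith, by linarith, h2⟩
  have him : ∀ z ∈ closedBall c 3, 0 < z.im ∧ T1 ≤ z.im := by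
    intro z hz
    have := abs_le.1 (hball z hz).2.2
    constructor <;> linarith
  have hM : ∀ z ∈ closedBall c 3, ‖F z‖ ≤ Real.exp (A * (L + 1)) := by
    intro z hz
    obtain ⟨h1, h2, h3⟩ := hball z hz
    refine (hg z (him z hz).2 h1 h2).trans (Real.exp_le_exp.2 ?_)
    have h5 := abs_le.1 (log_near' (T := T) (y := z.im) (X := 3) (by norm_num) (by linarith) h3)
    rw [← hL] at h5
    exact mul_le_mul_of_nonneg_left (by linarith) hA.le
  have hcb := (hbig c (by rw [hcim]; linarith) (by rw [hcre]; norm_num) (by rw [hcre]; norm_num)).1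
  rw [hcim, hcre, ← hL] at hcb
  have hfc1 : 1 ≤ ‖F c‖ := (Real.one_le_exp (by linarith)).trans hcb
  have hfc : 0 < ‖F c‖ := by linarith
  have hj := H370.Loc.jensen_mult (f := F) (c := c) (r := 2) (R := 3) (M := Real.exp (A * (L + 1)))
    (by norm_num) (by norm_num) (Real.one_le_exp (by positivity))
    (fun w hw => hF.an w (him w hw).1)
    (norm_pos_iff.1 hfc) hM Z (fun z hz => by
      obtain ⟨h1, h2, h3⟩ := hZ z hz
      rw [mem_closedBall, dist_eq_norm]
      have h4 : ‖z - c‖ ^ 2 ≤ 2 ^ 2 := by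
        rw [← Complex.normSq_eq_norm_sq, normSq_apply, sub_re, sub_im, hcre, hcim]
        have h5 := abs_le.1 h3
        have h6 : (z.im - T) * (z.im - T) ≤ 1 := by nlinarith
        have h7 : (z.re - -1) * (z.re - -1) ≤ 9 / 4 := by nlinarith
        linarith
      exact abs_le_of_sq_le_sq' h4 (by norm_num) |>.2)
  refine hj.trans ?_
  rw [div_mul_eq_mul_div]
  apply div_le_div_of_nonneg_right _ hκ.le
  rw [Real.log_div (Real.exp_pos _).ne' hfc.ne', Real.log_exp]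
  have h8 := Real.log_nonneg hfc1
  nlinarith

/-- a covering gives a bound for a sum -/
theorem cover {ι : Type*} (Z : Finset ℂ) (m : ℂ → ℝ) (hm : ∀ z, 0 ≤ m z) (W : Finset ι) (R : ℂ → ι → Prop)
    (B : ℝ) (hcov : ∀ z ∈ Z, ∃ w ∈ W, R z w)
    (hB : ∀ w ∈ W, ∀ Y : Finset ℂ, (∀ z ∈ Y, z ∈ Z ∧ R z w) → ∑ z ∈ Y, m z ≤ B) :
    ∑ z ∈ Z, m z ≤ W.card * B := by
  classical
  have h1 : ∀ z ∈ Z, m z ≤ ∑ w ∈ W, if R z w then m z else 0 := by
    intro z hz
    obtain ⟨w, hw, hR⟩ := hcov z hz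
    refine le_trans ?_ (Finset.single_le_sum (f := fun w => if R z w then m z else 0) (fun i _ => by
      split_ifs
      · exact hm z
      · exact le_rfl) hw)
    rw [if_pos hR]
  refine (Finset.sum_le_sum h1).trans ?_
  rw [Finset.sum_comm]
  have h2 : ∀ w ∈ W, ∑ z ∈ Z, (if R z w then m z else 0) ≤ B := by
    intro w hw
    rw [← Finset.sum_filter]
    exact hB w hw _ fun z hz => Finset.mem_filter.1 hz
  refine (Finset.sum_le_sum h2).trans ?_
  rw [Finset.sum_const, nsmul_eq_mul]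

/-- windows of fixed size -/
theorem window (P : ℂ[X]) (hP : P ≠ 0) (S : Finset ℝ) (c : ℝ → ℂ) (C : ℝ) (hC : 0 < C) :
    ∃ K : ℝ, 0 < K ∧ ∀ T : ℝ, 2 ≤ T → ∀ τ : ℝ, τ ≤ T → ∀ Z : Finset ℂ,
    (∀ z ∈ Z, LD P S c z = 0 ∧ 0 ≤ z.re ∧ z.re ≤ 1 / 2 ∧ 0 < z.im ∧ |z.im - τ| ≤ C) →
      ∑ z ∈ Z, (H370.mult (LD P S c) z : ℝ) ≤ K * Real.log T := by
  classical
  obtain ⟨K, T0, hK, hT0, hbox⟩ := box (cls_LD P hP S c)
  have hfin := fin_compact P hP S c (Icc 0 (1 / 2) ×ℂ Icc 0 (T0 + 1)) (isCompact_Icc.reProdIm isCompact_Icc)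
    (by
      intro h1
      rw [mem_reProdIm] at h1
      have := h1.1.2
      rw [one_re] at this
      norm_num at this)
  obtain ⟨M, hM⟩ : ∃ M : ℝ, M = ∑ z ∈ hfin.toFinset, (H370.mult (LD P S c) z : ℝ) := ⟨_, rfl⟩
  have hM0 : 0 ≤ M := by rw [hM]; positivity
  have hlog2 : 0 < Real.log 2 := Real.log_pos (by norm_num)
  obtain ⟨N, hN⟩ : ∃ N : ℕ, N = ⌈2 * C⌉₊ + 1 := ⟨_, rfl⟩
  have hN1 : 2 * C < N := by
    rw [hN]; push_cast
    have := Nat.le_ceil (2 * C)
    linarith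
  refine ⟨M / Real.log 2 + N * (K * (1 + Real.log (1 + C) / Real.log 2)), ?_, fun T hT τ hτ Z hZ => ?_⟩
  · have h1 : 0 < N * (K * (1 + Real.log (1 + C) / Real.log 2)) := by
      have h2 : 0 ≤ Real.log (1 + C) := Real.log_nonneg (by linarith)
      have h3 : (0 : ℝ) < N := by linarith
      positivity
    have h2 : 0 ≤ M / Real.log 2 := by positivity
    linarith
  have hlogT : Real.log 2 ≤ Real.log T := Real.log_le_log (by norm_num) hT
  have hlogTp : 0 < Real.log T := lt_of_lt_of_le hlog2 hlogT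
  have hsplit : ∑ z ∈ Z, (H370.mult (LD P S c) z : ℝ) =
      ∑ z ∈ Z.filter (fun z => z.im ≤ T0 + 1), (H370.mult (LD P S c) z : ℝ) +
      ∑ z ∈ Z.filter (fun z => ¬ z.im ≤ T0 + 1), (H370.mult (LD P S c) z : ℝ) :=
    (Finset.sum_filter_add_sum_filter_not _ _ _).symm
  have hlow : ∑ z ∈ Z.filter (fun z => z.im ≤ T0 + 1), (H370.mult (LD P S c) z : ℝ) ≤ M := by
    rw [hM]
    refine Finset.sum_le_sum_of_subset_of_nonneg (fun z hz => ?_) (fun _ _ _ => Nat.cast_nonneg _)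
    obtain ⟨h1, h2⟩ := Finset.mem_filter.1 hz
    obtain ⟨a1, a2, a3, a4, -⟩ := hZ z h1
    rw [hfin.mem_toFinset]
    refine ⟨?_, a1⟩
    rw [mem_reProdIm]
    exact ⟨⟨a2, a3⟩, a4.le, h2⟩
  have hlogC : Real.log (T + C) ≤ Real.log T * (1 + Real.log (1 + C) / Real.log 2) := by
    have h1 : Real.log (T + C) ≤ Real.log (T * (1 + C)) := by
      apply Real.log_le_log (by linarith)
      nlinarith
    rw [Real.log_mul (by linarith) (by linarith)] at h1
    have h2 : Real.log (1 + C) ≤ Real.log T * (Real.log (1 + C) / Real.log 2) := by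
      have h3 : 0 ≤ Real.log (1 + C) := Real.log_nonneg (by linarith)
      rw [mul_div_assoc', le_div_iff₀ hlog2]
      nlinarith
    rw [mul_add, mul_one]
    linarith
  have hhigh : ∑ z ∈ Z.filter (fun z => ¬ z.im ≤ T0 + 1), (H370.mult (LD P S c) z : ℝ) ≤
      (Finset.range N).card * (K * Real.log (T + C)) := by
    refine cover _ _ (fun z => Nat.cast_nonneg _) (Finset.range N)
      (fun z j => |z.im - (τ - C + (j : ℝ))| ≤ 1 ∧ τ - C + (j : ℝ) ≤ z.im) _ (fun z hz => ?_)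
      (fun j hj Y hY => ?_)
    · obtain ⟨h1, h2⟩ := Finset.mem_filter.1 hz
      obtain ⟨a1, a2, a3, a4, a5⟩ := hZ z h1
      have a5' := abs_le.1 a5
      have hnn : 0 ≤ z.im - (τ - C) := by linarith
      have h3 := Nat.floor_le hnn
      have h4 := Nat.lt_floor_add_one (z.im - (τ - C))
      refine ⟨⌊z.im - (τ - C)⌋₊, ?_, ?_, by linarith⟩
      · rw [Finset.mem_range]
        have h5 : ((⌊z.im - (τ - C)⌋₊ : ℕ) : ℝ) < N := by linarith
        exact_mod_cast h5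
      · rw [abs_le]; constructor <;> linarith
    · rcases Y.eq_empty_or_nonempty with he | ⟨y, hy⟩
      · rw [he, Finset.sum_empty]
        have : 0 ≤ Real.log (T + C) := Real.log_nonneg (by linarith)
        positivity
      · obtain ⟨h1, h2, h3⟩ := hY y hy
        obtain ⟨h4, h5⟩ := Finset.mem_filter.1 h1
        obtain ⟨a1, a2, a3, a4, a5⟩ := hZ y h4
        have a5' := abs_le.1 a5
        have h2' := abs_le.1 h2
        push Not at h5
        have h6 : T0 ≤ τ - C + (j : ℝ) := by linarith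
        refine (hbox (τ - C + (j : ℝ)) h6 Y (fun z hz => ?_)).trans ?_
        · obtain ⟨b1, b2, b3⟩ := hY z hz
          obtain ⟨b4, -⟩ := Finset.mem_filter.1 b1
          obtain ⟨c1, c2, c3, c4, c5⟩ := hZ z b4
          exact ⟨c2, c3, b2⟩
        · apply mul_le_mul_of_nonneg_left _ hK.le
          apply Real.log_le_log (by linarith)
          linarith
  rw [Finset.card_range] at hhigh
  rw [hsplit]
  have h7 : M ≤ M / Real.log 2 * Real.log T := by
    rw [div_mul_eq_mul_div, le_div_iff₀ hlog2]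
    exact mul_le_mul_of_nonneg_left hlogT hM0
  have h8 : (N : ℝ) * (K * Real.log (T + C)) ≤ N * (K * (1 + Real.log (1 + C) / Real.log 2)) * Real.log T := by
    have h9 : K * Real.log (T + C) ≤ K * (Real.log T * (1 + Real.log (1 + C) / Real.log 2)) :=
      mul_le_mul_of_nonneg_left hlogC hK.le
    calc _ ≤ (N : ℝ) * (K * (Real.log T * (1 + Real.log (1 + C) / Real.log 2))) :=
          mul_le_mul_of_nonneg_left h9 (Nat.cast_nonneg _)
      _ = _ := by ring
  rw [add_mul]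
  linarith

end Q240.LD
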