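import Pool.Agent.Q240.LD.Box

/-!
# Comparison of the numbers of zeros of two functions
-/

set_option autoImplicit false

namespace Q240.LD

open Complex Filter Topology Metric Set Polynomial
open Q240.SH Q240.LH

/-- zeros with `0 ≤ Re s ≤ a` and `0 < Im s ≤ T` -/
def zs (f : ℂ → ℂ) (a T : ℝ) : Set ℂ := {s : ℂ | f s = 0 ∧ 0 ≤ s.re ∧ s.re ≤ a ∧ 0 < s.im ∧ s.im ≤ T}

/-- their number -/
noncomputable def total (f : ℂ → ℂ) (a T : ℝ) : ℕ := ∑ᶠ s ∈ zs f a T, analyticOrderNatAt f s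

theorem zs_fin (P : ℂ[X]) (hP : P ≠ 0) (S : Finset ℝ) (c : ℝ → ℂ) (a T : ℝ) (ha : a < 1) :
    (zs (LD P S c) a T).Finite := by
  refine (fin_compact P hP S c (Icc 0 a ×ℂ Icc 0 T) (isCompact_Icc.reProdIm isCompact_Icc) ?_).subset ?_
  · intro h1
    rw [mem_reProdIm] at h1
    have := h1.1.2
    rw [one_re] at this
    linarith
  · rintro s ⟨h1, h2, h3, h4, h5⟩
    refine ⟨?_, h1⟩
    rw [mem_reProdIm]
    exact ⟨⟨h2, h3⟩, h4.le, h5⟩

theorem total_eq (P : ℂ[X]) (hP : P ≠ 0) (S : Finset ℝ) (c : ℝ → ℂ) (a T : ℝ) (ha : a < 1) :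
    (total (LD P S c) a T : ℝ) = ∑ z ∈ (zs_fin P hP S c a T ha).toFinset, (H370.mult (LD P S c) z : ℝ) := by
  unfold total
  rw [finsum_mem_eq_finite_toFinset_sum _ (zs_fin P hP S c a T ha)]
  push_cast
  rfl

theorem mult_pos (P : ℂ[X]) (hP : P ≠ 0) (S : Finset ℝ) (c : ℝ → ℂ) {z : ℂ} (hz : z ≠ 1)
    (h0 : LD P S c z = 0) : 1 ≤ H370.mult (LD P S c) z := by
  have han := LD_an P S c hz
  have h1 : analyticOrderAt (LD P S c) z ≠ 0 := han.analyticOrderAt_ne_zero.2 h0
  have h2 : analyticOrderAt (LD P S c) z ≠ ⊤ := by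
    intro htop
    rw [analyticOrderAt_eq_top] at htop
    obtain ⟨r, hr, hball⟩ := Metric.eventually_nhds_iff_ball.1 htop
    have hd : 0 < dist z 1 := dist_pos.2 hz
    obtain ⟨q, hq⟩ : ∃ q : ℝ, q = min (r / 2) (dist z 1 / 2) := ⟨_, rfl⟩
    have hq0 : 0 < q := by rw [hq]; positivity
    have hqr : q < r := by rw [hq]; exact (min_le_left _ _).trans_lt (by linarith)
    have hqd : q < dist z 1 := by rw [hq]; exact (min_le_right _ _).trans_lt (by linarith)
    have hfin := fin_compact P hP S c (closedBall z q) (isCompact_closedBall z q) (by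
      intro h
      rw [mem_closedBall, dist_comm] at h
      linarith)
    have hsub : (ball z q) ⊆ {s : ℂ | s ∈ closedBall z q ∧ LD P S c s = 0} := by
      intro s hs
      exact ⟨ball_subset_closedBall hs, hball s (ball_subset_ball hqr.le hs)⟩
    exact (infinite_of_mem_nhds z (ball_mem_nhds z hq0)) (hfin.subset hsub)
  unfold H370.mult analyticOrderNatAt
  rw [Nat.one_le_iff_ne_zero]
  intro h
  rw [ENat.toNat_eq_zero] at h
  rcases h with h | h
  · exact h1 h
  · exact h2 h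

theorem card_le_total (P : ℂ[X]) (hP : P ≠ 0) (S : Finset ℝ) (c : ℝ → ℂ) (a T : ℝ) (ha : a < 1) :
    ((zs_fin P hP S c a T ha).toFinset.card : ℝ) ≤ total (LD P S c) a T := by
  rw [total_eq P hP S c a T ha, Finset.card_eq_sum_ones]
  push_cast
  refine Finset.sum_le_sum fun z hz => ?_
  rw [Set.Finite.mem_toFinset] at hz
  have h1 : z ≠ 1 := by
    rintro rfl
    have := hz.2.2.2.1
    rw [one_im] at this
    exact lt_irrefl _ this
  exact_mod_cast mult_pos P hP S c h1 hz.1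

/-- zeros near given points -/
theorem near_count (P : ℂ[X]) (hP : P ≠ 0) (S : Finset ℝ) (c : ℝ → ℂ) (C : ℝ) (hC : 0 < C) :
    ∃ K : ℝ, 0 < K ∧ ∀ T : ℝ, 2 ≤ T → ∀ Z W : Finset ℂ,
    (∀ z ∈ Z, LD P S c z = 0 ∧ 0 ≤ z.re ∧ z.re ≤ 1 / 2 ∧ 0 < z.im ∧ z.im ≤ T) →
    (∀ z ∈ Z, ∃ w ∈ W, |z.im - w.im| ≤ C) →
      ∑ z ∈ Z, (H370.mult (LD P S c) z : ℝ) ≤ K * Real.log T * W.card := by
  obtain ⟨K, hK, hwin⟩ := window P hP S c C hC
  have hlog2 : 0 < Real.log 2 := Real.log_pos (by norm_num)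
  have hlog1C : 0 ≤ Real.log (1 + C) := Real.log_nonneg (by linarith)
  refine ⟨K * (1 + Real.log (1 + C) / Real.log 2), by positivity, fun T hT Z W hZ hW => ?_⟩
  have hlogT : Real.log 2 ≤ Real.log T := Real.log_le_log (by norm_num) hT
  have hlogC : Real.log (T + C) ≤ Real.log T * (1 + Real.log (1 + C) / Real.log 2) := by
    have h1 : Real.log (T + C) ≤ Real.log (T * (1 + C)) := by
      apply Real.log_le_log (by linarith)
      nlinarith
    rw [Real.log_mul (by linarith) (by linarith)] at h1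
    have h2 : Real.log (1 + C) ≤ Real.log T * (Real.log (1 + C) / Real.log 2) := by
      rw [mul_div_assoc', le_div_iff₀ hlog2]
      nlinarith
    rw [mul_add, mul_one]
    linarith
  have h1 := cover Z (fun z => (H370.mult (LD P S c) z : ℝ)) (fun z => Nat.cast_nonneg _) W
    (fun z w => |z.im - w.im| ≤ C) (K * Real.log (T + C)) hW (fun w hw Y hY => by
      rcases Y.eq_empty_or_nonempty with he | ⟨y, hy⟩
      · rw [he, Finset.sum_empty]
        have : 0 ≤ Real.log (T + C) := Real.log_nonneg (by linarith)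
        positivity
      · obtain ⟨b1, b2⟩ := hY y hy
        obtain ⟨-, -, -, -, b3⟩ := hZ y b1
        have b2' := abs_le.1 b2
        refine hwin (T + C) (by linarith) w.im (by linarith) Y fun z hz => ?_
        obtain ⟨c1, c2⟩ := hY z hz
        obtain ⟨d1, d2, d3, d4, d5⟩ := hZ z c1
        exact ⟨d1, d2, d3, d4, c2⟩)
  refine h1.trans ?_
  have h2 : K * Real.log (T + C) ≤ K * (Real.log T * (1 + Real.log (1 + C) / Real.log 2)) :=
    mul_le_mul_of_nonneg_left hlogC hK.le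
  calc (W.card : ℝ) * (K * Real.log (T + C)) ≤
        W.card * (K * (Real.log T * (1 + Real.log (1 + C) / Real.log 2))) :=
        mul_le_mul_of_nonneg_left h2 (Nat.cast_nonneg _)
    _ = _ := by ring

/-- comparison of two functions -/
theorem compare (P Q : ℂ[X]) (hP : P ≠ 0) (hQ : Q ≠ 0) (S R : Finset ℝ) (c d : ℝ → ℂ) (α ε : ℝ)
    (hε : 0 < ε) (hα : α ≤ 1 / 2) : ∃ C K : ℝ, 0 < C ∧ 0 < K ∧ ∀ T : ℝ, 2 ≤ T →
    (total (LD P S c) (α - ε) T : ℝ) ≤ K * Real.log T * (total (LD Q R d) α (T + C) + 1) := by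
  classical
  obtain ⟨C0, T0, hT0, hboth⟩ := both P Q hP hQ S R c d α ε hε hα
  obtain ⟨C, hC⟩ : ∃ C : ℝ, C = |C0| + T0 := ⟨_, rfl⟩
  have hCp : 0 < C := by rw [hC]; positivity
  have hC0 : C0 ≤ C := by rw [hC]; linarith [le_abs_self C0]
  obtain ⟨K, hK, hnear⟩ := near_count P hP S c C hCp
  refine ⟨C, K, hCp, hK, fun T hT => ?_⟩
  have ha1 : α - ε < 1 := by linarith
  have ha2 : α < 1 := by linarith
  rw [total_eq P hP S c _ T ha1]
  have h1 := hnear T hT (zs_fin P hP S c (α - ε) T ha1).toFinset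
    (insert 0 (zs_fin Q hQ R d α (T + C) ha2).toFinset) (fun z hz => by
      rw [Set.Finite.mem_toFinset] at hz
      obtain ⟨a1, a2, a3, a4, a5⟩ := hz
      exact ⟨a1, a2, by linarith, a4, a5⟩) (fun z hz => by
      rw [Set.Finite.mem_toFinset] at hz
      obtain ⟨a1, a2, a3, a4, a5⟩ := hz
      rcases le_or_gt z.im C with h | h
      · exact ⟨0, Finset.mem_insert_self _ _, by rw [zero_im, sub_zero, abs_of_pos a4]; exact h⟩
      · obtain ⟨s, s1, s2, s3, s4⟩ := hboth z a1 a2 a3 (by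
          rw [abs_of_pos a4]
          have := abs_nonneg C0
          linarith)
        have s4' := abs_le.1 s4
        refine ⟨s, Finset.mem_insert_of_mem ?_, by rw [abs_sub_comm]; linarith⟩
        rw [Set.Finite.mem_toFinset]
        exact ⟨s1, s2.le, s3.le, by linarith, by linarith⟩)
  refine h1.trans ?_
  have hlogT : 0 ≤ Real.log T := Real.log_nonneg (by linarith)
  apply mul_le_mul_of_nonneg_left _ (by positivity)
  have h2 := card_le_total Q hQ R d α (T + C) ha2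
  have h3 : ((insert 0 (zs_fin Q hQ R d α (T + C) ha2).toFinset).card : ℝ) ≤
      (zs_fin Q hQ R d α (T + C) ha2).toFinset.card + 1 := by
    exact_mod_cast Finset.card_insert_le _ _
  linarith

/-- the trivial bound -/
theorem trivial_bound (P : ℂ[X]) (hP : P ≠ 0) (S : Finset ℝ) (c : ℝ → ℂ) :
    ∃ K : ℝ, 0 < K ∧ ∀ T : ℝ, 2 ≤ T → (total (LD P S c) (1 / 2) T : ℝ) ≤ K * (T * Real.log T) := by
  classical
  obtain ⟨K, hK, hnear⟩ := near_count P hP S c 1 one_pos
  refine ⟨K * 2, by positivity, fun T hT => ?_⟩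
  have hlogT : 0 ≤ Real.log T := Real.log_nonneg (by linarith)
  rw [total_eq P hP S c _ T (by norm_num)]
  have h1 := hnear T hT (zs_fin P hP S c (1 / 2) T (by norm_num)).toFinset
    ((Finset.range (⌊T⌋₊ + 1)).image fun n : ℕ => (n : ℂ) * I) (fun z hz => by
      rw [Set.Finite.mem_toFinset] at hz
      exact hz) (fun z hz => by
      rw [Set.Finite.mem_toFinset] at hz
      obtain ⟨a1, a2, a3, a4, a5⟩ := hz
      refine ⟨((⌊z.im⌋₊ : ℕ) : ℂ) * I, Finset.mem_image.2 ⟨⌊z.im⌋₊, ?_, rfl⟩, ?_⟩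
      · rw [Finset.mem_range]
        have := Nat.floor_le_floor a5
        omega
      · have b1 := Nat.floor_le a4.le
        have b2 := Nat.lt_floor_add_one z.im
        have b3 : (((⌊z.im⌋₊ : ℕ) : ℂ) * I).im = ((⌊z.im⌋₊ : ℕ) : ℝ) := by simp
        rw [b3, abs_le]
        constructor <;> linarith)
  refine h1.trans ?_
  have h2 : (((Finset.range (⌊T⌋₊ + 1)).image fun n : ℕ => (n : ℂ) * I).card : ℝ) ≤ 2 * T := by
    have h3 : ((Finset.range (⌊T⌋₊ + 1)).image fun n : ℕ => (n : ℂ) * I).card ≤ ⌊T⌋₊ + 1 :=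
      Finset.card_image_le.trans (by rw [Finset.card_range])
    have h4 : (((Finset.range (⌊T⌋₊ + 1)).image fun n : ℕ => (n : ℂ) * I).card : ℝ) ≤ ⌊T⌋₊ + 1 := by
      exact_mod_cast h3
    have h5 := Nat.floor_le (show 0 ≤ T by linarith)
    linarith
  calc _ ≤ K * Real.log T * (2 * T) := mul_le_mul_of_nonneg_left h2 (by positivity)
    _ = _ := by ring

theorem total_mono (P : ℂ[X]) (hP : P ≠ 0) (S : Finset ℝ) (c : ℝ → ℂ) {a b T U : ℝ} (hab : a ≤ b) (hTU : T ≤ U)
    (hb : b < 1) : (total (LD P S c) a T : ℝ) ≤ total (LD P S c) b U := by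
  rw [total_eq P hP S c a T (by linarith), total_eq P hP S c b U hb]
  refine Finset.sum_le_sum_of_subset_of_nonneg (fun z hz => ?_) (fun _ _ _ => Nat.cast_nonneg _)
  rw [Set.Finite.mem_toFinset] at hz ⊢
  obtain ⟨a1, a2, a3, a4, a5⟩ := hz
  exact ⟨a1, a2, by linarith, a4, by linarith⟩

end Q240.LD
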