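import Pool.Agent.Q240.LD.Comp
import Pool.Agent.H370R2.DirGood

/-!
# Density exponents
-/

set_option autoImplicit false

namespace Q240.LD

open Complex Filter Topology Metric Set Polynomial
open Q240.SH Q240.LH

/-- density estimate with exponent `A`, uniformly on `[0, 1/2]` -/
def Dens (f : ℂ → ℂ) (A : ℝ → ℝ) : Prop := ∀ ε : ℝ, 0 < ε → ∃ C T0 : ℝ, ∀ T : ℝ, T0 ≤ T → ∀ α : ℝ,
  0 ≤ α → α ≤ 1 / 2 → (total f α T : ℝ) ≤ C * T ^ (A α + ε)

theorem log_le (T ε : ℝ) (hT : 0 ≤ T) (hε : 0 < ε) : Real.log T ≤ 4 / ε * T ^ (ε / 4) := by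
  have h := Real.log_le_rpow_div hT (show 0 < ε / 4 by positivity)
  calc Real.log T ≤ T ^ (ε / 4) / (ε / 4) := h
    _ = _ := by field_simp

theorem dens_pass (P Q : ℂ[X]) (hP : P ≠ 0) (hQ : Q ≠ 0) (S R : Finset ℝ) (c d : ℝ → ℂ) (A : ℝ → ℝ)
    (hA : ContinuousOn A (Icc 0 (1 / 2))) (hA0 : ∀ x ∈ Icc (0 : ℝ) (1 / 2), 0 ≤ A x) (hA1 : 1 ≤ A (1 / 2))
    (h : Dens (LD Q R d) A) : Dens (LD P S c) A := by
  intro ε hε
  have huc := isCompact_Icc.uniformContinuousOn_of_continuous hA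
  obtain ⟨δ0, hδ0, hδA⟩ := Metric.uniformContinuousOn_iff.1 huc (ε / 4) (by positivity)
  obtain ⟨M, hM⟩ := (isCompact_Icc.image_of_continuousOn hA).bddAbove
  have hM' : ∀ x ∈ Icc (0 : ℝ) (1 / 2), A x ≤ M := fun x hx => hM ⟨x, hx, rfl⟩
  obtain ⟨δ, hδ⟩ : ∃ δ : ℝ, δ = min (δ0 / 4) (1 / 8) := ⟨_, rfl⟩
  have hδp : 0 < δ := by rw [hδ]; positivity
  have hδ1 : δ ≤ δ0 / 4 := by rw [hδ]; exact min_le_left _ _
  have hδ2 : δ ≤ 1 / 8 := by rw [hδ]; exact min_le_right _ _
  have hcmp : ∀ j : ℕ, ∃ C K : ℝ, 0 < C ∧ 0 < K ∧ ∀ T : ℝ, 2 ≤ T →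
      (total (LD P S c) (min (1 / 2) ((j + 2) * δ) - δ) T : ℝ) ≤
        K * Real.log T * (total (LD Q R d) (min (1 / 2) ((j + 2) * δ)) (T + C) + 1) :=
    fun j => compare P Q hP hQ S R c d _ δ hδp (min_le_left _ _)
  choose Cj Kj hCj hKj hj using hcmp
  obtain ⟨J, hJ⟩ : ∃ J : ℕ, J = ⌈1 / (2 * δ)⌉₊ + 1 := ⟨_, rfl⟩
  obtain ⟨C1, hC1⟩ : ∃ C1 : ℝ, C1 = ∑ j ∈ Finset.range J, Cj j := ⟨_, rfl⟩
  obtain ⟨K1, hK1⟩ : ∃ K1 : ℝ, K1 = ∑ j ∈ Finset.range J, Kj j := ⟨_, rfl⟩
  have hC1j : ∀ j ∈ Finset.range J, Cj j ≤ C1 := fun j hjm => by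
    rw [hC1]; exact Finset.single_le_sum (fun i _ => (hCj i).le) hjm
  have hK1j : ∀ j ∈ Finset.range J, Kj j ≤ K1 := fun j hjm => by
    rw [hK1]; exact Finset.single_le_sum (fun i _ => (hKj i).le) hjm
  have hK10 : 0 ≤ K1 := by rw [hK1]; exact Finset.sum_nonneg fun i _ => (hKj i).le
  obtain ⟨C2, T2, h2⟩ := h (ε / 4) (by positivity)
  obtain ⟨K3, hK3, h3⟩ := trivial_bound P hP S c
  have hM0 : 0 ≤ M := (hA0 0 (by constructor <;> norm_num)).trans (hM' 0 (by constructor <;> norm_num))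
  obtain ⟨E, hE⟩ : ∃ E : ℝ, E = (2 : ℝ) ^ (M + ε) := ⟨_, rfl⟩
  have hE0 : 0 < E := by rw [hE]; positivity
  refine ⟨K1 * (4 / ε) * (|C2| * E + 1) + K3 * (4 / ε), max (max 2 T2) C1, fun T hT α hα0 hα1 => ?_⟩
  have b1 : 2 ≤ T := ((le_max_left _ _).trans (le_max_left _ _)).trans hT
  have b2 : T2 ≤ T := ((le_max_right _ _).trans (le_max_left _ _)).trans hT
  have b3 : C1 ≤ T := (le_max_right _ _).trans hT
  have hTp : 0 < T := by linarith
  have hlogT : 0 ≤ Real.log T := Real.log_nonneg (by linarith)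
  have hlog := log_le T ε hTp.le hε
  have hαm : α ∈ Icc (0 : ℝ) (1 / 2) := ⟨hα0, hα1⟩
  have hpos : 0 < T ^ (A α + ε) := by positivity
  obtain ⟨j, hjd⟩ : ∃ j : ℕ, j = ⌊α / δ⌋₊ := ⟨_, rfl⟩
  have hj1 : (j : ℝ) * δ ≤ α := by
    have := Nat.floor_le (show 0 ≤ α / δ by positivity)
    rw [← hjd, le_div_iff₀ hδp] at this
    exact this
  have hj2 : α < (j + 1) * δ := by
    have := Nat.lt_floor_add_one (α / δ)
    rw [← hjd, div_lt_iff₀ hδp] at this
    exact this
  have hjJ : j ∈ Finset.range J := by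
    rw [Finset.mem_range]
    have h4 : (j : ℝ) ≤ 1 / (2 * δ) := by
      rw [le_div_iff₀ (by positivity)]
      nlinarith
    have h5 : (j : ℝ) < J := by
      rw [hJ]; push_cast
      have := Nat.le_ceil (1 / (2 * δ))
      linarith
    exact_mod_cast h5
  rcases le_or_gt ((j + 2) * δ) (1 / 2) with hc | hc
  · have hmin : min (1 / 2) ((j + 2) * δ) = (j + 2) * δ := min_eq_right hc
    have h4 := hj j T b1
    rw [hmin] at h4
    have h5 : (total (LD P S c) α T : ℝ) ≤ total (LD P S c) ((j + 2) * δ - δ) T :=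
      total_mono P hP S c (by nlinarith) le_rfl (by nlinarith)
    have h6 : (0 : ℝ) ≤ (j + 2) * δ := by positivity
    have h7 : A ((j + 2) * δ) ≤ A α + ε / 4 := by
      have h8 := hδA ((j + 2) * δ) ⟨h6, hc⟩ α hαm (by
        rw [Real.dist_eq, abs_lt]
        constructor <;> nlinarith)
      rw [Real.dist_eq] at h8
      have := (abs_lt.1 h8).2
      linarith
    have hCjT : Cj j ≤ T := (hC1j j hjJ).trans b3
    have h9 := h2 (T + Cj j) (by linarith [hCj j]) ((j + 2) * δ) h6 hc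
    have h10 : (T + Cj j) ^ (A ((j + 2) * δ) + ε / 4) ≤ E * T ^ (A α + ε / 2) := by
      have e1 : (T + Cj j) ^ (A ((j + 2) * δ) + ε / 4) ≤ (2 * T) ^ (A α + ε / 2) := by
        refine (Real.rpow_le_rpow (by linarith [hCj j]) (show T + Cj j ≤ 2 * T by linarith) ?_).trans
          (Real.rpow_le_rpow_of_exponent_le (by linarith) (by linarith))
        have := hA0 _ ⟨h6, hc⟩
        positivity
      refine e1.trans ?_
      rw [Real.mul_rpow (by norm_num) hTp.le, hE]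
      apply mul_le_mul_of_nonneg_right _ (by positivity)
      apply Real.rpow_le_rpow_of_exponent_le (by norm_num)
      have := hM' α hαm
      linarith
    have h11 : (total (LD Q R d) ((j + 2) * δ) (T + Cj j) : ℝ) + 1 ≤ (|C2| * E + 1) * T ^ (A α + ε / 2) := by
      have e2 : (1 : ℝ) ≤ T ^ (A α + ε / 2) := Real.one_le_rpow (by linarith) (by
        have := hA0 α hαm
        linarith)
      have e3 : C2 * (T + Cj j) ^ (A ((j + 2) * δ) + ε / 4) ≤ |C2| * (E * T ^ (A α + ε / 2)) := by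
        refine (mul_le_mul_of_nonneg_right (le_abs_self C2) (by
          have := hCj j
          positivity)).trans ?_
        exact mul_le_mul_of_nonneg_left h10 (abs_nonneg _)
      calc _ ≤ |C2| * (E * T ^ (A α + ε / 2)) + T ^ (A α + ε / 2) := by linarith
        _ = _ := by ring
    calc (total (LD P S c) α T : ℝ) ≤ Kj j * Real.log T * (total (LD Q R d) ((j + 2) * δ) (T + Cj j) + 1) :=
          h5.trans h4
      _ ≤ K1 * (4 / ε * T ^ (ε / 4)) * ((|C2| * E + 1) * T ^ (A α + ε / 2)) := by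
          have e4 : 0 ≤ 4 / ε * T ^ (ε / 4) := by positivity
          have e5 := hK1j j hjJ
          gcongr
      _ = K1 * (4 / ε) * (|C2| * E + 1) * (T ^ (ε / 4) * T ^ (A α + ε / 2)) := by ring
      _ ≤ K1 * (4 / ε) * (|C2| * E + 1) * T ^ (A α + ε) := by
          apply mul_le_mul_of_nonneg_left _ (by positivity)
          rw [← Real.rpow_add hTp]
          apply Real.rpow_le_rpow_of_exponent_le (by linarith)
          linarith
      _ ≤ _ := by
          rw [add_mul]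
          have : 0 ≤ K3 * (4 / ε) * T ^ (A α + ε) := by positivity
          linarith
  · have h5 : (total (LD P S c) α T : ℝ) ≤ total (LD P S c) (1 / 2) T :=
      total_mono P hP S c hα1 le_rfl (by norm_num)
    have h7 : 1 ≤ A α + ε / 4 := by
      have h8 := hδA (1 / 2) ⟨by norm_num, le_rfl⟩ α hαm (by
        rw [Real.dist_eq, abs_lt]
        constructor <;> nlinarith)
      rw [Real.dist_eq] at h8
      have := (abs_lt.1 h8).2
      linarith
    calc (total (LD P S c) α T : ℝ) ≤ K3 * (T * Real.log T) := h5.trans (h3 T b1)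
      _ ≤ K3 * (T ^ (A α + ε / 4) * (4 / ε * T ^ (ε / 4))) := by
          have e1 : T ≤ T ^ (A α + ε / 4) := by
            calc T = T ^ (1 : ℝ) := (Real.rpow_one T).symm
              _ ≤ _ := Real.rpow_le_rpow_of_exponent_le (by linarith) h7
          gcongr
      _ = K3 * (4 / ε) * (T ^ (A α + ε / 4) * T ^ (ε / 4)) := by ring
      _ ≤ K3 * (4 / ε) * T ^ (A α + ε) := by
          apply mul_le_mul_of_nonneg_left _ (by positivity)
          rw [← Real.rpow_add hTp]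
          apply Real.rpow_le_rpow_of_exponent_le (by linarith)
          linarith
      _ ≤ _ := by
          rw [add_mul]
          have : 0 ≤ K1 * (4 / ε) * (|C2| * E + 1) * T ^ (A α + ε) := by positivity
          linarith

end Q240.LD
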