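import Pool.Agent.Q240.LD.Zeta
import Pool.Agent.Results.MP_4467b5_nt.IsolatedZeros

/-!
# Zeros of F with few left neighbours
-/

set_option autoImplicit false

namespace Q240.LD

open Complex Filter Topology Metric Set Polynomial
open Q240.SH Q240.LH

/-- few left zeros of `F` give few left zeros of zeta, in a larger window -/
theorem local_ok (P : ℂ[X]) (hP : P ≠ 0) (S : Finset ℝ) (c : ℝ → ℂ) (α e κ B : ℝ) (hα0 : 0 < α)
    (hα : α ≤ 1 / 2) (he : 0 < e) (hκ : 0 < κ) (hB : 0 < B) : ∃ η C T0 : ℝ, 0 < η ∧ 0 < C ∧ C < T0 ∧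
    ∀ T : ℝ, T0 ≤ T → (left (LD P S c) (α - η) T C : ℝ) ≤ η * Real.log T →
    ∀ y : ℝ, |y - T| ≤ B → (left riemannZeta (α - e) y 1 : ℝ) ≤ κ * Real.log y := by
  obtain ⟨η2, C2, T2, hη2, hC2, -, h2⟩ := small_few 1 one_ne_zero ∅ (fun _ => 0) α (min e κ) hα0 hα
    (lt_min he hκ)
  rw [one_eq] at h2
  obtain ⟨η, C, T3, hη, hC, hCT, h3⟩ := large_zeros P hP S c α (η2 / 2) (B + C2) hα0 hα (by positivity)
    (by positivity)
  refine ⟨η, C, max (max T3 (C + 1)) (|T2| + 2 * B + 4), hη, hC, ?_, fun T hT hl y hy => ?_⟩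
  · have := (le_max_right T3 (C + 1)).trans (le_max_left _ (|T2| + 2 * B + 4))
    linarith
  have b1 : T3 ≤ T := ((le_max_left _ _).trans (le_max_left _ _)).trans hT
  have b2 : |T2| + 2 * B + 4 ≤ T := (le_max_right _ _).trans hT
  have hT2 : T2 ≤ |T2| := le_abs_self _
  have hT20 : 0 ≤ |T2| := abs_nonneg _
  have hy' := abs_le.1 hy
  have hyp : 2 ≤ y := by linarith
  have hlogy : 0 ≤ Real.log y := Real.log_nonneg (by linarith)
  have hloglog : Real.log T ≤ 2 * Real.log y := by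
    have h4 : T ≤ y ^ 2 := by nlinarith
    have h5 := Real.log_le_log (by linarith) h4
    rw [Real.log_pow] at h5
    exact_mod_cast h5
  have h6 := h2 y (by linarith) (fun t ht => by
    have ht' := abs_le.1 ht
    refine (h3 T b1 hl t (by rw [abs_le]; constructor <;> linarith)).trans (Real.exp_le_exp.2 ?_)
    nlinarith)
  obtain ⟨Z1, hZ1, e1⟩ := left_set 1 one_ne_zero ∅ (fun _ => 0) (α - e) y 1 (by linarith)
  obtain ⟨Z2, hZ2, e2⟩ := left_set 1 one_ne_zero ∅ (fun _ => 0) (α - min e κ) y 1 (by linarith)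
  rw [one_eq] at e1 e2 hZ1 hZ2
  rw [e2] at h6
  rw [e1]
  have hm1 : min e κ ≤ e := min_le_left _ _
  have hm2 : min e κ ≤ κ := min_le_right _ _
  have h7 : ∑ z ∈ Z1, (H370.mult riemannZeta z : ℝ) ≤ ∑ z ∈ Z2, (H370.mult riemannZeta z : ℝ) := by
    refine Finset.sum_le_sum_of_subset_of_nonneg (fun z hz => ?_) (fun _ _ _ => Nat.cast_nonneg _)
    obtain ⟨c1, c2, c3, c4⟩ := (hZ1 z).1 hz
    exact (hZ2 z).2 ⟨c1, c2, by linarith, c4⟩
  refine h7.trans (h6.trans ?_)
  exact mul_le_mul_of_nonneg_right hm2 hlogy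

open Pool.Agent.Results.MP_4467b5_nt.IsolatedZeros in
/-- the disc condition of the starting file -/
theorem near_small {ρ : ℂ} {b e X : ℝ} (h1 : 0 < ρ.re) (h2 : ρ.re ≤ b)
    (h3 : 3 ≤ ρ.im) (he : 0 < e) (hbe : b + e ≤ 1 / 2)
    (hl : (left riemannZeta (b + e) ρ.im 1 : ℝ) ≤ X) :
    (count (near e (1 - (starRingEnd ℂ) ρ)) : ℝ) ≤ X := by
  classical
  refine le_trans ?_ hl
  obtain ⟨Z, hZ, hsum⟩ := left_set 1 one_ne_zero ∅ (fun _ => 0) (b + e) ρ.im 1 (by linarith)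
  rw [one_eq] at hsum hZ
  rw [hsum]
  have hfin := near_finite e (1 - (starRingEnd ℂ) ρ)
  have hc : (count (near e (1 - (starRingEnd ℂ) ρ)) : ℝ) =
      ∑ w ∈ hfin.toFinset, (H370.mult riemannZeta w : ℝ) := by
    unfold count
    rw [finsum_mem_eq_finite_toFinset_sum _ hfin]
    push_cast
    rfl
  rw [hc]
  have hmem : ∀ w ∈ hfin.toFinset, riemannZeta (1 - (starRingEnd ℂ) w) = 0 ∧ 0 < w.re ∧ w.re < 1 ∧
      1 ≤ w.im ∧ 1 - w.re ≤ b + e ∧ |w.im - ρ.im| ≤ 1 := by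
    intro w hw
    rw [Set.Finite.mem_toFinset] at hw
    obtain ⟨a1, a2⟩ := hw
    have hre : (1 - (starRingEnd ℂ) ρ).re = 1 - ρ.re := by rw [sub_re, one_re, conj_re]
    have him : (1 - (starRingEnd ℂ) ρ).im = ρ.im := by rw [sub_im, one_im, conj_im]; ring
    rw [hre, him] at a2
    have a3 : ‖w - (1 + (ρ.im : ℂ) * I)‖ ≤ ρ.re + e := by linarith
    have a4 := abs_le.1 ((abs_re_le_norm (w - (1 + (ρ.im : ℂ) * I))).trans a3)
    have a5 := (abs_im_le_norm (w - (1 + (ρ.im : ℂ) * I))).trans a3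
    have a6 : (w - (1 + (ρ.im : ℂ) * I)).re = w.re - 1 := by simp
    have a7 : (w - (1 + (ρ.im : ℂ) * I)).im = w.im - ρ.im := by simp
    rw [a6] at a4
    rw [a7] at a5
    have a8 := abs_le.1 a5
    have a9 : 0 < w.re := by linarith
    obtain ⟨b1, b2⟩ := refl_conj a1 a9
    exact ⟨b1, a9, b2, by linarith, by linarith, by linarith⟩
  calc ∑ w ∈ hfin.toFinset, (H370.mult riemannZeta w : ℝ) =
        ∑ w ∈ hfin.toFinset, (H370.mult riemannZeta (1 - (starRingEnd ℂ) w) : ℝ) := by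
        refine Finset.sum_congr rfl fun w hw => ?_
        obtain ⟨c1, c2, c3, c4, c5, c6⟩ := hmem w hw
        unfold H370.mult analyticOrderNatAt
        rw [H370.good_zeta.symm w c2 c3 c4]
    _ = ∑ v ∈ hfin.toFinset.image (fun w => 1 - (starRingEnd ℂ) w), (H370.mult riemannZeta v : ℝ) := by
        rw [Finset.sum_image]
        intro x _ y _ hxy
        have : (starRingEnd ℂ) x = (starRingEnd ℂ) y := by
          have h4 : (1 : ℂ) - (starRingEnd ℂ) x = 1 - (starRingEnd ℂ) y := hxy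
          linear_combination -h4
        exact (starRingEnd ℂ).injective this
    _ ≤ _ := by
        refine Finset.sum_le_sum_of_subset_of_nonneg (fun v hv => ?_) (fun _ _ _ => Nat.cast_nonneg _)
        obtain ⟨w, hw, rfl⟩ := Finset.mem_image.1 hv
        obtain ⟨c1, c2, c3, c4, c5, c6⟩ := hmem w hw
        refine (hZ _).2 ⟨c1, ?_, ?_, ?_⟩
        · rw [sub_re, one_re, conj_re]; linarith
        · rw [sub_re, one_re, conj_re]; linarith
        · rw [sub_im, one_im, conj_im]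
          rw [show (0 : ℝ) - -w.im - ρ.im = w.im - ρ.im by ring]
          exact c6

end Q240.LD
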