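import Pool.Agent.Q240.LD.Iso

/-!
# The density hypothesis for zeros of F with few left neighbours
-/

set_option autoImplicit false

namespace Q240.LD

open Complex Filter Topology Metric Set Polynomial
open Q240.SH Q240.LH

theorem left_mono (P : ℂ[X]) (hP : P ≠ 0) (S : Finset ℝ) (c : ℝ → ℂ) {a a' T h h' : ℝ} (haa : a ≤ a')
    (hhh : h ≤ h') (hT : h' < T) : (left (LD P S c) a T h : ℝ) ≤ left (LD P S c) a' T h' := by
  obtain ⟨Z1, hZ1, e1⟩ := left_set P hP S c a T h (by linarith)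
  obtain ⟨Z2, hZ2, e2⟩ := left_set P hP S c a' T h' hT
  rw [e1, e2]
  refine Finset.sum_le_sum_of_subset_of_nonneg (fun z hz => ?_) (fun _ _ _ => Nat.cast_nonneg _)
  obtain ⟨c1, c2, c3, c4⟩ := (hZ1 z).1 hz
  exact (hZ2 z).2 ⟨c1, c2, by linarith, by linarith⟩

theorem sum_le_total (P : ℂ[X]) (hP : P ≠ 0) (S : Finset ℝ) (c : ℝ → ℂ) (T : ℝ) (Z : Finset ℂ)
    (hZ : ∀ z ∈ Z, z ∈ zs (LD P S c) (1 / 2) T) :
    ∑ z ∈ Z, (H370.mult (LD P S c) z : ℝ) ≤ total (LD P S c) (1 / 2) T := by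
  rw [total_eq P hP S c (1 / 2) T (by norm_num)]
  refine Finset.sum_le_sum_of_subset_of_nonneg (fun z hz => ?_) (fun _ _ _ => Nat.cast_nonneg _)
  rw [Set.Finite.mem_toFinset]
  exact hZ z hz

open Pool.Agent.Results.MP_4467b5_nt.IsolatedZeros in
theorem card_le_count (A : Set ℂ) (σ T : ℝ) (hA : A ⊆ zeros σ T) (hf : A.Finite) :
    (hf.toFinset.card : ℝ) ≤ count A := by
  unfold count
  rw [finsum_mem_eq_finite_toFinset_sum _ hf, Finset.card_eq_sum_ones]
  push_cast
  refine Finset.sum_le_sum fun z hz => ?_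
  rw [Set.Finite.mem_toFinset] at hz
  obtain ⟨a1, a2, a3, a4⟩ := hA hz
  have h1 : z ≠ 1 := by
    rintro rfl
    rw [one_im] at a3
    exact lt_irrefl _ a3
  have h2 := mult_pos 1 one_ne_zero ∅ (fun _ => 0) h1 (by rw [one_eq]; exact a1)
  rw [one_eq] at h2
  exact_mod_cast h2

open Pool.Agent.Results.MP_4467b5_nt.IsolatedZeros in
theorem iso_main (P : ℂ[X]) (hP : P ≠ 0) (S : Finset ℝ) (c : ℝ → ℂ) (ε δ : ℝ) (hε : 0 < ε) (hδ : 0 < δ)
    (hδ1 : δ ≤ 1 / 4) : ∃ η C K T0 : ℝ, 0 < η ∧ 0 < C ∧ 0 < K ∧ 0 < T0 ∧ ∀ T : ℝ, T0 ≤ T → ∀ α : ℝ, 0 ≤ α →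
    α ≤ 1 / 2 → ∀ Z : Finset ℂ, (∀ z ∈ Z, z ∈ zs (LD P S c) α T ∧
      (left (LD P S c) (z.re + δ) z.im C : ℝ) ≤ η * Real.log T) →
      ∑ z ∈ Z, (H370.mult (LD P S c) z : ℝ) ≤ K * T ^ (2 * α + ε) := by
  classical
  obtain ⟨e, he⟩ : ∃ e : ℝ, e = min (δ / 8) (ε / 64) := ⟨_, rfl⟩
  have hep : 0 < e := by rw [he]; positivity
  have he1 : e ≤ δ / 8 := by rw [he]; exact min_le_left _ _
  have he2 : e ≤ ε / 64 := by rw [he]; exact min_le_right _ _
  obtain ⟨η0, hη0, C0, hC0, T00, hseed⟩ :=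
    Pool.Agent.Results.MP_4467b5_nt.IsolatedZeros.result (ε / 2) e (by positivity) hep
  obtain ⟨J, hJ⟩ : ∃ J : ℕ, J = ⌈1 / (2 * e)⌉₊ + 1 := ⟨_, rfl⟩
  have hJpos : (Finset.range J).Nonempty := ⟨0, by rw [Finset.mem_range, hJ]; omega⟩
  have hb : ∀ j : ℕ, ∃ C T0 : ℝ, 0 < T0 ∧ ∀ ρ : ℂ, LD P S c ρ = 0 → 0 ≤ ρ.re →
      ρ.re ≤ min (1 / 2) ((j + 2) * e) - e → T0 ≤ |ρ.im| → ∃ s : ℂ, riemannZeta s = 0 ∧ 0 < s.re ∧
      s.re < min (1 / 2) ((j + 2) * e) ∧ |s.im - ρ.im| ≤ C := by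
    intro j
    have h := both P 1 hP one_ne_zero S ∅ c (fun _ => 0) (min (1 / 2) ((j + 2) * e)) e hep (min_le_left _ _)
    rwa [one_eq] at h
  choose Cb Tb hTb hbb using hb
  obtain ⟨B, hB⟩ : ∃ B : ℝ, B = ∑ j ∈ Finset.range J, |Cb j| + 1 := ⟨_, rfl⟩
  have hBj : ∀ j ∈ Finset.range J, Cb j ≤ B := fun j hj => by
    have h1 : |Cb j| ≤ ∑ j ∈ Finset.range J, |Cb j| :=
      Finset.single_le_sum (f := fun j => |Cb j|) (fun i _ => abs_nonneg _) hj
    rw [hB]; linarith [le_abs_self (Cb j)]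
  have hBp : 1 ≤ B := by
    have : 0 ≤ ∑ j ∈ Finset.range J, |Cb j| := Finset.sum_nonneg fun i _ => abs_nonneg _
    rw [hB]; linarith
  have hl : ∀ j : ℕ, ∃ η C T0 : ℝ, 0 < η ∧ 0 < C ∧ C < T0 ∧
      ∀ T : ℝ, T0 ≤ T → (left (LD P S c) (min (1 / 2) ((j + 4) * e) - η) T C : ℝ) ≤ η * Real.log T →
      ∀ y : ℝ, |y - T| ≤ B → (left riemannZeta (min (1 / 2) ((j + 4) * e) - e) y 1 : ℝ) ≤
        η0 * Real.log y := fun j =>
    local_ok P hP S c (min (1 / 2) ((j + 4) * e)) e η0 B (by positivity) (min_le_left _ _) hep hη0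
      (by linarith)
  choose ηj Cj Tj hηj hCj hCTj hlj using hl
  obtain ⟨j0, hj0, hmin⟩ := Finset.exists_min_image (Finset.range J) ηj hJpos
  obtain ⟨C, hC⟩ : ∃ C : ℝ, C = ∑ j ∈ Finset.range J, Cj j := ⟨_, rfl⟩
  have hCjC : ∀ j ∈ Finset.range J, Cj j ≤ C := fun j hj => by
    rw [hC]; exact Finset.single_le_sum (f := Cj) (fun i _ => (hCj i).le) hj
  have hCp : 0 < C := (hCj j0).trans_le (hCjC j0 hj0)
  obtain ⟨T1, hT1⟩ : ∃ T1 : ℝ, T1 = ∑ j ∈ Finset.range J, Tb j + ∑ j ∈ Finset.range J, Tj j + C + B + 10 :=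
    ⟨_, rfl⟩
  have hTj0 : ∀ j, 0 < Tj j := fun j => (hCj j).trans (hCTj j)
  have hs1 : 0 ≤ ∑ j ∈ Finset.range J, Tb j := Finset.sum_nonneg fun i _ => (hTb i).le
  have hs2 : 0 ≤ ∑ j ∈ Finset.range J, Tj j := Finset.sum_nonneg fun i _ => (hTj0 i).le
  have hTb1 : ∀ j ∈ Finset.range J, Tb j ≤ T1 := fun j hj => by
    have := Finset.single_le_sum (f := Tb) (fun i _ => (hTb i).le) hj
    rw [hT1]; linarith
  have hTj1 : ∀ j ∈ Finset.range J, Tj j ≤ T1 := fun j hj => by
    have := Finset.single_le_sum (f := Tj) (fun i _ => (hTj0 i).le) hj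
    rw [hT1]; linarith
  have hT1a : C + B + 10 ≤ T1 := by rw [hT1]; linarith
  have hT1p : 0 < T1 := by linarith
  obtain ⟨K1, hK1, hnear⟩ := near_count P hP S c B (by linarith)
  obtain ⟨K2, hK2, htriv⟩ := trivial_bound P hP S c
  refine ⟨ε / 8 * ηj j0, C, K2 * (4 / ε) + K2 * 4 + K1 * (4 / ε) * (C0 * 2 ^ (2 + ε)),
    max (max 2 T00) (max (T1 ^ (8 / ε)) T1), by have := hηj j0; positivity, hCp, by positivity, by positivity,
    fun T hT α hα0 hα1 Z hZ => ?_⟩
  have b1 : 2 ≤ T := ((le_max_left _ _).trans (le_max_left _ _)).trans hT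
  have b2 : T00 ≤ T := ((le_max_right _ _).trans (le_max_left _ _)).trans hT
  have b3 : T1 ^ (8 / ε) ≤ T := ((le_max_left _ _).trans (le_max_right _ _)).trans hT
  have b4 : T1 ≤ T := ((le_max_right _ _).trans (le_max_right _ _)).trans hT
  have hTp : 0 < T := by linarith
  have hlogT : 0 ≤ Real.log T := Real.log_nonneg (by linarith)
  have hlog := log_le T ε hTp.le hε
  have hpos : 0 < T ^ (2 * α + ε) := by positivity
  have hZhalf : ∀ z ∈ Z, z ∈ zs (LD P S c) (1 / 2) T := by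
    intro z hz
    obtain ⟨⟨a1, a2, a3, a4, a5⟩, -⟩ := hZ z hz
    exact ⟨a1, a2, by linarith, a4, a5⟩
  rcases lt_or_ge (1 / 2 - 5 * e) α with hcase | hcase
  · -- close to the line
    calc ∑ z ∈ Z, (H370.mult (LD P S c) z : ℝ) ≤ K2 * (T * Real.log T) :=
          (sum_le_total P hP S c T Z hZhalf).trans (htriv T b1)
      _ ≤ K2 * (T ^ (2 * α + 3 / 4 * ε) * (4 / ε * T ^ (ε / 4))) := by
          have e1 : T ≤ T ^ (2 * α + 3 / 4 * ε) := by
            calc T = T ^ (1 : ℝ) := (Real.rpow_one T).symm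
              _ ≤ _ := Real.rpow_le_rpow_of_exponent_le (by linarith) (by linarith)
          gcongr
      _ = K2 * (4 / ε) * (T ^ (2 * α + 3 / 4 * ε) * T ^ (ε / 4)) := by ring
      _ = K2 * (4 / ε) * T ^ (2 * α + ε) := by
          rw [← Real.rpow_add hTp]
          congr 2
          ring
      _ ≤ _ := by
          rw [add_mul, add_mul]
          have e1 : 0 ≤ K2 * 4 * T ^ (2 * α + ε) := by positivity
          have e2 : 0 ≤ K1 * (4 / ε) * (C0 * 2 ^ (2 + ε)) * T ^ (2 * α + ε) := by positivity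
          linarith
  · -- away from the line
    obtain ⟨U, hU⟩ : ∃ U : ℝ, U = T ^ (ε / 8) + T1 := ⟨_, rfl⟩
    have hT1e : T1 ≤ T ^ (ε / 8) := by
      have h1 : (T1 ^ (8 / ε)) ^ (ε / 8) ≤ T ^ (ε / 8) :=
        Real.rpow_le_rpow (by positivity) b3 (by positivity)
      rw [← Real.rpow_mul hT1p.le] at h1
      have h2 : 8 / ε * (ε / 8) = 1 := by field_simp
      rwa [h2, Real.rpow_one] at h1
    have hTe : 0 < T ^ (ε / 8) := by positivity
    have hU1 : U ≤ 2 * T ^ (ε / 8) := by rw [hU]; linarith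
    have hU2 : 2 ≤ U := by rw [hU]; linarith
    rw [← Finset.sum_filter_add_sum_filter_not Z (fun z => z.im ≤ U)]
    have hlow : ∑ z ∈ Z.filter (fun z => z.im ≤ U), (H370.mult (LD P S c) z : ℝ) ≤
        K2 * 4 * T ^ (2 * α + ε) := by
      have h1 := sum_le_total P hP S c U (Z.filter (fun z => z.im ≤ U)) (fun z hz => by
        obtain ⟨h2, h3⟩ := Finset.mem_filter.1 hz
        obtain ⟨a1, a2, a3, a4, a5⟩ := hZhalf z h2
        exact ⟨a1, a2, a3, a4, h3⟩)
      have h2 : Real.log U ≤ U := (Real.log_le_sub_one_of_pos (by linarith)).trans (by linarith)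
      have h3 : U * Real.log U ≤ 4 * T ^ (2 * α + ε) := by
        calc U * Real.log U ≤ U * U := mul_le_mul_of_nonneg_left h2 (by linarith)
          _ ≤ (2 * T ^ (ε / 8)) * (2 * T ^ (ε / 8)) := by gcongr
          _ = 4 * (T ^ (ε / 8) * T ^ (ε / 8)) := by ring
          _ ≤ 4 * T ^ (2 * α + ε) := by
              apply mul_le_mul_of_nonneg_left _ (by norm_num)
              rw [← Real.rpow_add hTp]
              apply Real.rpow_le_rpow_of_exponent_le (by linarith)
              linarith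
      calc _ ≤ K2 * (U * Real.log U) := h1.trans (htriv U hU2)
        _ ≤ K2 * (4 * T ^ (2 * α + ε)) := mul_le_mul_of_nonneg_left h3 hK2.le
        _ = _ := by ring
    obtain ⟨T', hT'⟩ : ∃ T' : ℝ, T' = T + B := ⟨_, rfl⟩
    have hT'2 : T' ≤ 2 * T := by rw [hT']; linarith
    have hT'0 : T00 ≤ T' := by rw [hT']; linarith
    have hT'p : 0 < T' := by rw [hT']; linarith
    obtain ⟨σ, hσ⟩ : ∃ σ : ℝ, σ = 1 - α - 2 * e := ⟨_, rfl⟩
    have hσ1 : 1 / 2 ≤ σ := by rw [hσ]; linarith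
    have hσ2 : σ ≤ 1 := by rw [hσ]; linarith
    obtain ⟨A, hA⟩ : ∃ A : Set ℂ, A = {ρ : ℂ | ρ ∈ zeros σ T' ∧ (count (near e ρ) : ℝ) ≤
      η0 * Real.log T'} := ⟨_, rfl⟩
    have hAsub : A ⊆ zeros σ T' := by rw [hA]; exact fun _ h => h.1
    have hAf : A.Finite := (zeros_finite σ T').subset hAsub
    have hAc : (hAf.toFinset.card : ℝ) ≤ C0 * T' ^ (2 * (1 - σ) + ε / 2) := by
      refine (card_le_count A σ T' hAsub hAf).trans ?_
      rw [hA]
      exact hseed T' hT'0 σ hσ1 hσ2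
    have hhigh : ∑ z ∈ Z.filter (fun z => ¬ z.im ≤ U), (H370.mult (LD P S c) z : ℝ) ≤
        K1 * Real.log T * hAf.toFinset.card := by
      refine hnear T b1 _ _ (fun z hz => ?_) (fun z hz => ?_)
      · exact hZhalf z (Finset.mem_filter.1 hz).1
      · obtain ⟨h1, h2⟩ := Finset.mem_filter.1 hz
        push Not at h2
        obtain ⟨⟨a1, a2, a3, a4, a5⟩, a6⟩ := hZ z h1
        have hzT1 : T1 ≤ z.im := by linarith
        have hzTe : T ^ (ε / 8) ≤ z.im := by linarith
        obtain ⟨j, hjd⟩ : ∃ j : ℕ, j = ⌊z.re / e⌋₊ := ⟨_, rfl⟩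
        have hj1 : (j : ℝ) * e ≤ z.re := by
          have := Nat.floor_le (show 0 ≤ z.re / e by positivity)
          rw [← hjd, le_div_iff₀ hep] at this
          exact this
        have hj2 : z.re < (j + 1) * e := by
          have := Nat.lt_floor_add_one (z.re / e)
          rw [← hjd, div_lt_iff₀ hep] at this
          exact this
        have hj4 : ((j : ℝ) + 4) * e ≤ 1 / 2 := by linarith
        have hjJ : j ∈ Finset.range J := by
          rw [Finset.mem_range]
          have h4 : (j : ℝ) ≤ 1 / (2 * e) := by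
            rw [le_div_iff₀ (by positivity)]
            linarith
          have h5 : (j : ℝ) < J := by
            rw [hJ]; push_cast
            have := Nat.le_ceil (1 / (2 * e))
            linarith
          exact_mod_cast h5
        have hm2 : min (1 / 2) (((j : ℝ) + 2) * e) = (j + 2) * e := min_eq_right (by linarith)
        have hm4 : min (1 / 2) (((j : ℝ) + 4) * e) = (j + 4) * e := min_eq_right hj4
        obtain ⟨ρ, r1, r2, r3, r4⟩ := hbb j z a1 a2 (by rw [hm2]; linarith) (by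
          rw [abs_of_pos a4]
          exact (hTb1 j hjJ).trans hzT1)
        rw [hm2] at r3
        have r5 : |ρ.im - z.im| ≤ B := r4.trans (hBj j hjJ)
        have r5' := abs_le.1 r5
        have hlogz : ε / 8 * Real.log T ≤ Real.log z.im := by
          have h6 := Real.log_le_log hTe hzTe
          rwa [Real.log_rpow hTp] at h6
        have hlogz0 : 0 ≤ Real.log z.im := le_trans (by positivity) hlogz
        have h7 : (left (LD P S c) (min (1 / 2) ((j + 4) * e) - ηj j) z.im (Cj j) : ℝ) ≤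
            ηj j * Real.log z.im := by
          refine (left_mono P hP S c (a' := z.re + δ) (h' := C) ?_ (hCjC j hjJ) (by linarith)).trans
            (a6.trans ?_)
          · rw [hm4]
            have := hηj j
            linarith
          · have h8 := hmin j hjJ
            have h9 := hηj j0
            calc ε / 8 * ηj j0 * Real.log T = ηj j0 * (ε / 8 * Real.log T) := by ring
              _ ≤ ηj j0 * Real.log z.im := mul_le_mul_of_nonneg_left hlogz h9.le
              _ ≤ ηj j * Real.log z.im := mul_le_mul_of_nonneg_right h8 hlogz0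
        have h8 := hlj j z.im ((hTj1 j hjJ).trans hzT1) h7 ρ.im r5
        rw [hm4] at h8
        have hρ3 : 3 ≤ ρ.im := by linarith
        have hρT : ρ.im ≤ T' := by rw [hT']; linarith
        have h9 : (left riemannZeta ((j + 2) * e + e) ρ.im 1 : ℝ) ≤ η0 * Real.log T' := by
          rw [show ((j : ℝ) + 2) * e + e = (j + 4) * e - e by ring]
          refine h8.trans ?_
          exact mul_le_mul_of_nonneg_left (Real.log_le_log (by linarith) hρT) hη0.le
        have h10 := near_small r2 r3.le hρ3 hep (by linarith) h9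
        obtain ⟨q1, q2⟩ := refl_conj r1 r2
        refine ⟨1 - (starRingEnd ℂ) ρ, ?_, ?_⟩
        · rw [Set.Finite.mem_toFinset, hA]
          refine ⟨⟨q1, ?_, ?_, ?_⟩, h10⟩
          · rw [sub_re, one_re, conj_re, hσ]; linarith
          · rw [sub_im, one_im, conj_im]; linarith
          · rw [sub_im, one_im, conj_im]; linarith
        · rw [sub_im, one_im, conj_im, abs_sub_comm]
          rw [show (0 : ℝ) - -ρ.im - z.im = ρ.im - z.im by ring]
          exact r5
    have hcard : (hAf.toFinset.card : ℝ) ≤ C0 * 2 ^ (2 + ε) * T ^ (2 * α + 3 / 4 * ε) := by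
      refine hAc.trans ?_
      have e1 : T' ^ (2 * (1 - σ) + ε / 2) ≤ 2 ^ (2 + ε) * T ^ (2 * α + 3 / 4 * ε) := by
        have e2 : 2 * (1 - σ) + ε / 2 = 2 * α + 4 * e + ε / 2 := by rw [hσ]; ring
        rw [e2]
        calc T' ^ (2 * α + 4 * e + ε / 2) ≤ (2 * T) ^ (2 * α + 4 * e + ε / 2) :=
              Real.rpow_le_rpow hT'p.le hT'2 (by positivity)
          _ = 2 ^ (2 * α + 4 * e + ε / 2) * T ^ (2 * α + 4 * e + ε / 2) :=
              Real.mul_rpow (by norm_num) hTp.le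
          _ ≤ 2 ^ (2 + ε) * T ^ (2 * α + 3 / 4 * ε) := by
              apply mul_le_mul
              · apply Real.rpow_le_rpow_of_exponent_le (by norm_num)
                linarith
              · apply Real.rpow_le_rpow_of_exponent_le (by linarith)
                linarith
              · positivity
              · positivity
      calc C0 * T' ^ (2 * (1 - σ) + ε / 2) ≤ C0 * (2 ^ (2 + ε) * T ^ (2 * α + 3 / 4 * ε)) :=
            mul_le_mul_of_nonneg_left e1 hC0.le
        _ = _ := by ring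
    have hhigh2 : ∑ z ∈ Z.filter (fun z => ¬ z.im ≤ U), (H370.mult (LD P S c) z : ℝ) ≤
        K1 * (4 / ε) * (C0 * 2 ^ (2 + ε)) * T ^ (2 * α + ε) := by
      refine hhigh.trans ?_
      calc K1 * Real.log T * hAf.toFinset.card ≤
            K1 * (4 / ε * T ^ (ε / 4)) * (C0 * 2 ^ (2 + ε) * T ^ (2 * α + 3 / 4 * ε)) := by
            gcongr
        _ = K1 * (4 / ε) * (C0 * 2 ^ (2 + ε)) * (T ^ (ε / 4) * T ^ (2 * α + 3 / 4 * ε)) := by ring
        _ = _ := by
            rw [← Real.rpow_add hTp]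
            congr 2
            ring
    rw [add_mul, add_mul]
    have e1 : 0 ≤ K2 * (4 / ε) * T ^ (2 * α + ε) := by positivity
    linarith

end Q240.LD
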