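import Pool.Agent.Q240.LD.Dens
import Pool.Agent.H31R2.DH.Assemble

/-!
# The density hypothesis
-/

set_option autoImplicit false

namespace Q240.LD

open Complex Filter Topology Metric Set Polynomial
open Q240.SH Q240.LH

/-- the number of zeros of zeta with `Re s ≥ σ` and `0 < Im s ≤ T` -/
noncomputable def N (σ T : ℝ) : ℕ :=
  ∑ᶠ s ∈ {s : ℂ | riemannZeta s = 0 ∧ σ ≤ s.re ∧ 0 < s.im ∧ s.im ≤ T}, analyticOrderNatAt riemannZeta s

/-- the density hypothesis -/
def DH : Prop := ∀ ε : ℝ, 0 < ε → ∃ C T0 : ℝ, 0 < C ∧ 0 < T0 ∧ ∀ T : ℝ, T0 ≤ T → ∀ σ : ℝ, 1 / 2 ≤ σ →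
  σ ≤ 1 → (N σ T : ℝ) ≤ C * T ^ (2 * (1 - σ) + ε)

theorem one_eq : LD (1 : ℂ[X]) ∅ (fun _ => 0) = riemannZeta := by funext s; exact LD_one ∅ s

theorem refl_conj {s : ℂ} (h0 : riemannZeta s = 0) (hre : 0 < s.re) :
    riemannZeta (1 - (starRingEnd ℂ) s) = 0 ∧ s.re < 1 := by
  obtain ⟨h1, h2⟩ := Q240.QS.refl_zero h0 hre
  refine ⟨?_, h2⟩
  have h3 := Q240.QS.it_conj 0 (1 - s)
  rw [iteratedDeriv_zero, h1, map_zero, map_sub, map_one] at h3
  exact h3

theorem zsz (a T : ℝ) (ha : a < 1) : (zs riemannZeta a T).Finite := by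
  have h := zs_fin 1 one_ne_zero ∅ (fun _ => 0) a T ha
  rwa [one_eq] at h

theorem tz_eq (a T : ℝ) (ha : a < 1) :
    (total riemannZeta a T : ℝ) = ∑ z ∈ (zsz a T ha).toFinset, (H370.mult riemannZeta z : ℝ) := by
  unfold total
  rw [finsum_mem_eq_finite_toFinset_sum _ (zsz a T ha)]
  push_cast
  rfl

theorem N_le (σ T : ℝ) (hσ : 1 / 2 ≤ σ) : (N σ T : ℝ) ≤ total riemannZeta (1 - σ) T + N (1 / 2) 1 := by
  classical
  have hfA := DH31.zeros_finite σ T
  have hfB := zsz (1 - σ) T (by linarith)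
  have hfL := DH31.zeros_finite (1 / 2) 1
  have e1 : (N σ T : ℝ) = ∑ s ∈ hfA.toFinset, (H370.mult riemannZeta s : ℝ) := by
    unfold N
    rw [show {s : ℂ | riemannZeta s = 0 ∧ σ ≤ s.re ∧ 0 < s.im ∧ s.im ≤ T} = DH31.zeros σ T from rfl,
      finsum_mem_eq_finite_toFinset_sum _ hfA]
    push_cast
    rfl
  have e2 : (N (1 / 2) 1 : ℝ) = ∑ s ∈ hfL.toFinset, (H370.mult riemannZeta s : ℝ) := by
    unfold N
    rw [show {s : ℂ | riemannZeta s = 0 ∧ 1 / 2 ≤ s.re ∧ 0 < s.im ∧ s.im ≤ 1} = DH31.zeros (1 / 2) 1 from rfl,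
      finsum_mem_eq_finite_toFinset_sum _ hfL]
    push_cast
    rfl
  have e3' : (total riemannZeta (1 - σ) T : ℝ) = ∑ z ∈ hfB.toFinset, (H370.mult riemannZeta z : ℝ) :=
    tz_eq (1 - σ) T (by linarith)
  rw [e1, e2, e3', ← Finset.sum_filter_add_sum_filter_not hfA.toFinset (fun s => 1 ≤ s.im)]
  have hlow : ∑ s ∈ hfA.toFinset.filter (fun s => ¬ 1 ≤ s.im), (H370.mult riemannZeta s : ℝ) ≤
      ∑ s ∈ hfL.toFinset, (H370.mult riemannZeta s : ℝ) := by
    refine Finset.sum_le_sum_of_subset_of_nonneg (fun z hz => ?_) (fun _ _ _ => Nat.cast_nonneg _)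
    obtain ⟨h1, h2⟩ := Finset.mem_filter.1 hz
    rw [Set.Finite.mem_toFinset] at h1 ⊢
    obtain ⟨a1, a2, a3, a4⟩ := h1
    push Not at h2
    exact ⟨a1, by linarith, a3, h2.le⟩
  have hhigh : ∑ s ∈ hfA.toFinset.filter (fun s => 1 ≤ s.im), (H370.mult riemannZeta s : ℝ) ≤
      ∑ z ∈ hfB.toFinset, (H370.mult riemannZeta z : ℝ) := by
    have hmem : ∀ s ∈ hfA.toFinset.filter (fun s => 1 ≤ s.im), 0 < s.re ∧ s.re < 1 ∧ 1 ≤ s.im ∧
        riemannZeta (1 - (starRingEnd ℂ) s) = 0 ∧ σ ≤ s.re ∧ s.im ≤ T := by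
      intro s hs
      obtain ⟨h1, h2⟩ := Finset.mem_filter.1 hs
      rw [Set.Finite.mem_toFinset] at h1
      obtain ⟨a1, a2, a3, a4⟩ := h1
      obtain ⟨b1, b2⟩ := refl_conj a1 (by linarith)
      exact ⟨by linarith, b2, h2, b1, a2, a4⟩
    calc ∑ s ∈ hfA.toFinset.filter (fun s => 1 ≤ s.im), (H370.mult riemannZeta s : ℝ) =
          ∑ s ∈ hfA.toFinset.filter (fun s => 1 ≤ s.im),
            (H370.mult riemannZeta (1 - (starRingEnd ℂ) s) : ℝ) := by
          refine Finset.sum_congr rfl fun s hs => ?_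
          obtain ⟨h1, h2, h3, -⟩ := hmem s hs
          unfold H370.mult analyticOrderNatAt
          rw [H370.good_zeta.symm s h1 h2 h3]
      _ = ∑ w ∈ (hfA.toFinset.filter (fun s => 1 ≤ s.im)).image (fun s => 1 - (starRingEnd ℂ) s),
            (H370.mult riemannZeta w : ℝ) := by
          rw [Finset.sum_image]
          intro x _ y _ hxy
          have : (starRingEnd ℂ) x = (starRingEnd ℂ) y := by
            have h4 : (1 : ℂ) - (starRingEnd ℂ) x = 1 - (starRingEnd ℂ) y := hxy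
            linear_combination -h4
          exact (starRingEnd ℂ).injective this
      _ ≤ _ := by
          refine Finset.sum_le_sum_of_subset_of_nonneg (fun z hz => ?_) (fun _ _ _ => Nat.cast_nonneg _)
          obtain ⟨s, hs, rfl⟩ := Finset.mem_image.1 hz
          obtain ⟨h1, h2, h3, h4, h5, h6⟩ := hmem s hs
          rw [Set.Finite.mem_toFinset]
          refine ⟨h4, ?_, ?_, ?_, ?_⟩
          · rw [sub_re, one_re, conj_re]; linarith
          · rw [sub_re, one_re, conj_re]; linarith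
          · rw [sub_im, one_im, conj_im]; linarith
          · rw [sub_im, one_im, conj_im]; linarith
  linarith

theorem total_le (a T : ℝ) (ha : a ≤ 1 / 2) :
    (total riemannZeta a T : ℝ) ≤ N (1 - a) T + total riemannZeta (1 / 2) 1 := by
  classical
  have hfA := DH31.zeros_finite (1 - a) T
  have hfB := zsz a T (by linarith)
  have hfL := zsz (1 / 2) 1 (by norm_num)
  have e1 : (N (1 - a) T : ℝ) = ∑ s ∈ hfA.toFinset, (H370.mult riemannZeta s : ℝ) := by
    unfold N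
    rw [show {s : ℂ | riemannZeta s = 0 ∧ 1 - a ≤ s.re ∧ 0 < s.im ∧ s.im ≤ T} = DH31.zeros (1 - a) T from rfl,
      finsum_mem_eq_finite_toFinset_sum _ hfA]
    push_cast
    rfl
  have e2' : (total riemannZeta a T : ℝ) = ∑ z ∈ hfB.toFinset, (H370.mult riemannZeta z : ℝ) :=
    tz_eq a T (by linarith)
  have e3' : (total riemannZeta (1 / 2) 1 : ℝ) = ∑ z ∈ hfL.toFinset, (H370.mult riemannZeta z : ℝ) :=
    tz_eq (1 / 2) 1 (by norm_num)
  rw [e1, e2', e3', ← Finset.sum_filter_add_sum_filter_not hfB.toFinset (fun s => 1 ≤ s.im)]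
  have hlow : ∑ s ∈ hfB.toFinset.filter (fun s => ¬ 1 ≤ s.im), (H370.mult riemannZeta s : ℝ) ≤
      ∑ s ∈ hfL.toFinset, (H370.mult riemannZeta s : ℝ) := by
    refine Finset.sum_le_sum_of_subset_of_nonneg (fun z hz => ?_) (fun _ _ _ => Nat.cast_nonneg _)
    obtain ⟨h1, h2⟩ := Finset.mem_filter.1 hz
    rw [Set.Finite.mem_toFinset] at h1 ⊢
    obtain ⟨a1, a2, a3, a4, a5⟩ := h1
    push Not at h2
    exact ⟨a1, a2, by linarith, a4, h2.le⟩
  have hhigh : ∑ s ∈ hfB.toFinset.filter (fun s => 1 ≤ s.im), (H370.mult riemannZeta s : ℝ) ≤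
      ∑ z ∈ hfA.toFinset, (H370.mult riemannZeta z : ℝ) := by
    have hmem : ∀ s ∈ hfB.toFinset.filter (fun s => 1 ≤ s.im), 0 < s.re ∧ s.re < 1 ∧ 1 ≤ s.im ∧
        riemannZeta (1 - (starRingEnd ℂ) s) = 0 ∧ s.re ≤ a ∧ s.im ≤ T := by
      intro s hs
      obtain ⟨h1, h2⟩ := Finset.mem_filter.1 hs
      rw [Set.Finite.mem_toFinset] at h1
      obtain ⟨a1, a2, a3, a4, a5⟩ := h1
      have hre : 0 < s.re := by
        by_contra hc
        push Not at hc
        exact H370.good_zeta.nzl s hc h2 a1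
      obtain ⟨b1, b2⟩ := refl_conj a1 hre
      exact ⟨hre, b2, h2, b1, a3, a5⟩
    calc ∑ s ∈ hfB.toFinset.filter (fun s => 1 ≤ s.im), (H370.mult riemannZeta s : ℝ) =
          ∑ s ∈ hfB.toFinset.filter (fun s => 1 ≤ s.im),
            (H370.mult riemannZeta (1 - (starRingEnd ℂ) s) : ℝ) := by
          refine Finset.sum_congr rfl fun s hs => ?_
          obtain ⟨h1, h2, h3, -⟩ := hmem s hs
          unfold H370.mult analyticOrderNatAt
          rw [H370.good_zeta.symm s h1 h2 h3]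
      _ = ∑ w ∈ (hfB.toFinset.filter (fun s => 1 ≤ s.im)).image (fun s => 1 - (starRingEnd ℂ) s),
            (H370.mult riemannZeta w : ℝ) := by
          rw [Finset.sum_image]
          intro x _ y _ hxy
          have : (starRingEnd ℂ) x = (starRingEnd ℂ) y := by
            have h4 : (1 : ℂ) - (starRingEnd ℂ) x = 1 - (starRingEnd ℂ) y := hxy
            linear_combination -h4
          exact (starRingEnd ℂ).injective this
      _ ≤ _ := by
          refine Finset.sum_le_sum_of_subset_of_nonneg (fun z hz => ?_) (fun _ _ _ => Nat.cast_nonneg _)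
          obtain ⟨s, hs, rfl⟩ := Finset.mem_image.1 hz
          obtain ⟨h1, h2, h3, h4, h5, h6⟩ := hmem s hs
          rw [Set.Finite.mem_toFinset]
          refine ⟨h4, ?_, ?_, ?_⟩
          · rw [sub_re, one_re, conj_re]; linarith
          · rw [sub_im, one_im, conj_im]; linarith
          · rw [sub_im, one_im, conj_im]; linarith
  linarith

theorem dh_iff_zeta : DH ↔ Dens riemannZeta fun α => 2 * α := by
  constructor
  · intro h ε hε
    obtain ⟨C, T0, hC, hT0, hm⟩ := h ε hε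
    refine ⟨C + total riemannZeta (1 / 2) 1, max T0 1, fun T hT α h0 h1 => ?_⟩
    have b1 : T0 ≤ T := (le_max_left _ _).trans hT
    have b2 : 1 ≤ T := (le_max_right _ _).trans hT
    have h2 := hm T b1 (1 - α) (by linarith) (by linarith)
    rw [show 2 * (1 - (1 - α)) + ε = 2 * α + ε by ring] at h2
    have h3 : (1 : ℝ) ≤ T ^ (2 * α + ε) := Real.one_le_rpow b2 (by positivity)
    have h4 : (total riemannZeta (1 / 2) 1 : ℝ) ≤ total riemannZeta (1 / 2) 1 * T ^ (2 * α + ε) :=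
      le_mul_of_one_le_right (Nat.cast_nonneg _) h3
    have h5 := total_le α T h1
    rw [add_mul]
    linarith
  · intro h ε hε
    obtain ⟨C, T0, hm⟩ := h ε hε
    refine ⟨|C| + N (1 / 2) 1 + 1, max T0 1, by positivity, by positivity, fun T hT σ h0 h1 => ?_⟩
    have b1 : T0 ≤ T := (le_max_left _ _).trans hT
    have b2 : 1 ≤ T := (le_max_right _ _).trans hT
    have h2 := hm T b1 (1 - σ) (by linarith) (by linarith)
    have h3 : (1 : ℝ) ≤ T ^ (2 * (1 - σ) + ε) := Real.one_le_rpow b2 (by nlinarith)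
    have h4 : (N (1 / 2) 1 : ℝ) ≤ N (1 / 2) 1 * T ^ (2 * (1 - σ) + ε) :=
      le_mul_of_one_le_right (Nat.cast_nonneg _) h3
    have h5 := N_le σ T h0
    have h6 : C * T ^ (2 * (1 - σ) + ε) ≤ |C| * T ^ (2 * (1 - σ) + ε) :=
      mul_le_mul_of_nonneg_right (le_abs_self C) (by positivity)
    have h7 : |C| * T ^ (2 * (1 - σ) + ε) + N (1 / 2) 1 * T ^ (2 * (1 - σ) + ε) ≤
        (|C| + N (1 / 2) 1 + 1) * T ^ (2 * (1 - σ) + ε) := by
      have : 0 ≤ T ^ (2 * (1 - σ) + ε) := by positivity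
      nlinarith
    simp only at h2
    linarith

theorem dh_iff (P : ℂ[X]) (hP : P ≠ 0) (S : Finset ℝ) (c : ℝ → ℂ) :
    DH ↔ Dens (LD P S c) fun α => 2 * α := by
  rw [dh_iff_zeta, ← one_eq]
  have h1 : ContinuousOn (fun α : ℝ => 2 * α) (Icc 0 (1 / 2)) := by fun_prop
  have h2 : ∀ x ∈ Icc (0 : ℝ) (1 / 2), 0 ≤ 2 * x := fun x hx => by linarith [hx.1]
  exact ⟨dens_pass P 1 hP one_ne_zero S ∅ c _ _ h1 h2 (by norm_num),
    dens_pass 1 P one_ne_zero hP ∅ S _ c _ h1 h2 (by norm_num)⟩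

end Q240.LD
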